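import Mathlib

set_option autoImplicit false

namespace Pool.Agent.H.MP_ce8257_co

theorem p0 (r : ℝ) (h1 : (0 : ℝ) ≤ r) (h2 : r ≤ (1/4 : ℝ)) :
    0 ≤ ((r - 1/2)^2)^0/1 + ((r - 1/2)^2)^1/1 + ((r - 1/2)^2)^2/2 + ((r - 1/2)^2)^3/6 + ((r - 1/2)^2)^4/24 + ((r - 1/2)^2)^5/120 + ((r - 1/2)^2)^6/720 + ((r - 1/2)^2)^7/5040 - 10 * (r * (r - 1)^3 * (r - 2) * (r^2 - 3*r + 1)) := by
  have h : ∀ u v : ℝ, 0 ≤ u → 0 ≤ v → 0 ≤ (108573553664/315 : ℝ) * u^0 * v^14 + (50957167616/15 : ℝ) * u^1 * v^13 + (675474162944/45 : ℝ) * u^2 * v^12 + (1766856802816/45 : ℝ) * u^3 * v^11 + (204521822528/3 : ℝ) * u^4 * v^10 + (3851417540032/45 : ℝ) * u^5 * v^9 + (438888530512/5 : ℝ) * u^6 * v^8 + (3037666516032/35 : ℝ) * u^7 * v^7 + (434842455044/5 : ℝ) * u^8 * v^6 + (694460291660/9 : ℝ) * u^9 * v^5 + (789334858381/15 : ℝ) * u^10 * v^4 + (1143197328802/45 : ℝ)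 * u^11 * v^3 + (1460342365169/180 : ℝ) * u^12 * v^2 + (92208725027/60 : ℝ) * u^13 * v^1 + (131966609533/1008 : ℝ) * u^14 * v^0 := by
    intro u v hu hv
    positivity
  have h' := h (r - (0 : ℝ)) ((1/4 : ℝ) - r) (by linarith) (by linarith)
  refine le_of_le_of_eq h' ?_
  ring

theorem p1 (r : ℝ) (h1 : (1/4 : ℝ) ≤ r) (h2 : r ≤ (1/2 : ℝ)) :
    0 ≤ ((r - 1/2)^2)^0/1 + ((r - 1/2)^2)^1/1 + ((r - 1/2)^2)^2/2 + ((r - 1/2)^2)^3/6 + ((r - 1/2)^2)^4/24 + ((r - 1/2)^2)^5/120 + ((r - 1/2)^2)^6/720 + ((r - 1/2)^2)^7/5040 - 10 * (r * (r - 1)^3 * (r - 2) * (r^2 - 3*r + 1)) := by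
  have h : ∀ u v : ℝ, 0 ≤ u → 0 ≤ v → 0 ≤ (131966609533/1008 : ℝ) * u^0 * v^14 + (95801718146/45 : ℝ) * u^1 * v^13 + (711472858177/45 : ℝ) * u^2 * v^12 + (355297160576/5 : ℝ) * u^3 * v^11 + (1080690345824/5 : ℝ) * u^4 * v^10 + (1413910727680/3 : ℝ) * u^5 * v^9 + (2282719969792/3 : ℝ) * u^6 * v^8 + (2775835181056/3 : ℝ) * u^7 * v^7 + (2558114496512/3 : ℝ) * u^8 * v^6 + (593334239232 : ℝ) * u^9 * v^5 + (307176407040 : ℝ) * u^10 * v^4 + (114843713536 : ℝ) * u^11 * v^3 + (29336010752 : ℝ) * u^12 * v^2 + (4586471424 : ℝ) * u^13 * v^1 + (331350016 : ℝ) * u^14 * v^0 := by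
    intro u v hu hv
    positivity
  have h' := h (r - (1/4 : ℝ)) ((1/2 : ℝ) - r) (by linarith) (by linarith)
  refine le_of_le_of_eq h' ?_
  ring

theorem p2 (r : ℝ) (h1 : (1/2 : ℝ) ≤ r) (h2 : r ≤ (1 : ℝ)) :
    0 ≤ ((r - 1/2)^2)^0/1 + ((r - 1/2)^2)^1/1 + ((r - 1/2)^2)^2/2 + ((r - 1/2)^2)^3/6 + ((r - 1/2)^2)^4/24 + ((r - 1/2)^2)^5/120 + ((r - 1/2)^2)^6/720 + ((r - 1/2)^2)^7/5040 - 10 * (r * (r - 1)^3 * (r - 2) * (r^2 - 3*r + 1)) := by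
  have h : ∀ u v : ℝ, 0 ≤ u → 0 ≤ v → 0 ≤ (20224 : ℝ) * u^0 * v^14 + (289536 : ℝ) * u^1 * v^13 + (1890560 : ℝ) * u^2 * v^12 + (7491328 : ℝ) * u^3 * v^11 + (20212992 : ℝ) * u^4 * v^10 + (39468288 : ℝ) * u^5 * v^9 + (173350784/3 : ℝ) * u^6 * v^8 + (194155264/3 : ℝ) * u^7 * v^7 + (167770120/3 : ℝ) * u^8 * v^6 + (111569968/3 : ℝ) * u^9 * v^5 + (93767454/5 : ℝ) * u^10 * v^4 + (34746296/5 : ℝ) * u^11 * v^3 + (64279997/36 : ℝ) * u^12 * v^2 + (25560529/90 : ℝ) * u^13 * v^1 + (106028861/5040 : ℝ) * u^14 * v^0 := by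
    intro u v hu hv
    positivity
  have h' := h (r - (1/2 : ℝ)) ((1 : ℝ) - r) (by linarith) (by linarith)
  refine le_of_le_of_eq h' ?_
  ring

theorem p3 (r : ℝ) (h1 : (1 : ℝ) ≤ r) (h2 : r ≤ (2 : ℝ)) :
    0 ≤ ((r - 1/2)^2)^0/1 + ((r - 1/2)^2)^1/1 + ((r - 1/2)^2)^2/2 + ((r - 1/2)^2)^3/6 + ((r - 1/2)^2)^4/24 + ((r - 1/2)^2)^5/120 + ((r - 1/2)^2)^6/720 + ((r - 1/2)^2)^7/5040 - 10 * (r * (r - 1)^3 * (r - 2) * (r^2 - 3*r + 1)) := by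
  have h : ∀ u v : ℝ, 0 ≤ u → 0 ≤ v → 0 ≤ (106028861/82575360 : ℝ) * u^0 * v^14 + (113602351/5898240 : ℝ) * u^1 * v^13 + (1598006401/11796480 : ℝ) * u^2 * v^12 + (190758819/327680 : ℝ) * u^3 * v^11 + (439740015/262144 : ℝ) * u^4 * v^10 + (6643499803/1966080 : ℝ) * u^5 * v^9 + (19140223739/3932160 : ℝ) * u^6 * v^8 + (17604680473/3440640 : ℝ) * u^7 * v^7 + (16018720243/3932160 : ℝ) * u^8 * v^6 + (348408453/131072 : ℝ) * u^9 * v^5 + (2054458323/1310720 : ℝ) * u^10 * v^4 + (271427843/327680 : ℝ) * u^11 * v^3 + (439664641/1310720 : ℝ) * u^12 * v^2 + (55248327/655360 : ℝ) * u^13 * v^1 + (17370601/1835008 : ℝ) * u^14 * v^0 := by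
    intro u v hu hv
    positivity
  have h' := h (r - (1 : ℝ)) ((2 : ℝ) - r) (by linarith) (by linarith)
  refine le_of_le_of_eq h' ?_
  ring

theorem p4 (r : ℝ) (h1 : (2 : ℝ) ≤ r) (h2 : r ≤ (4 : ℝ)) :
    0 ≤ ((r - 1/2)^2)^0/1 + ((r - 1/2)^2)^1/1 + ((r - 1/2)^2)^2/2 + ((r - 1/2)^2)^3/6 + ((r - 1/2)^2)^4/24 + ((r - 1/2)^2)^5/120 + ((r - 1/2)^2)^6/720 + ((r - 1/2)^2)^7/5040 - 10 * (r * (r - 1)^3 * (r - 2) * (r^2 - 3*r + 1)) := by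
  have h : ∀ u v : ℝ, 0 ≤ u → 0 ≤ v → 0 ≤ (17370601/30064771072 : ℝ) * u^0 * v^14 + (150062361/10737418240 : ℝ) * u^1 * v^13 + (3301721137/21474836480 : ℝ) * u^2 * v^12 + (5357583533/5368709120 : ℝ) * u^3 * v^11 + (18078950103/4294967296 : ℝ) * u^4 * v^10 + (25894683579/2147483648 : ℝ) * u^5 * v^9 + (1535588767843/64424509440 : ℝ) * u^6 * v^8 + (259888047601/8053063680 : ℝ) * u^7 * v^7 + (1857716102843/64424509440 : ℝ) * u^8 * v^6 + (100118838785/6442450944 : ℝ) * u^9 * v^5 + (18349743359/4294967296 : ℝ) * u^10 * v^4 + (7047907533/5368709120 : ℝ) * u^11 * v^3 + (377539480033/193273528320 : ℝ) * u^12 * v^2 + (136764640849/96636764160 : ℝ) * u^13 * v^1 + (13538760463/38654705664 : ℝ) * u^14 * v^0 := by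
    intro u v hu hv
    positivity
  have h' := h (r - (2 : ℝ)) ((4 : ℝ) - r) (by linarith) (by linarith)
  refine le_of_le_of_eq h' ?_
  ring

theorem pinf (r : ℝ) (h1 : (4 : ℝ) ≤ r) :
    0 ≤ ((r - 1/2)^2)^0/1 + ((r - 1/2)^2)^1/1 + ((r - 1/2)^2)^2/2 + ((r - 1/2)^2)^3/6 + ((r - 1/2)^2)^4/24 + ((r - 1/2)^2)^5/120 + ((r - 1/2)^2)^6/720 + ((r - 1/2)^2)^7/5040 - 10 * (r * (r - 1)^3 * (r - 2) * (r^2 - 3*r + 1)) := by
  have h : ∀ u : ℝ, 0 ≤ u → 0 ≤ (13538760463/2359296 : ℝ) * u^0 + (84272993839/2949120 : ℝ) * u^1 + (186362176789/2949120 : ℝ) * u^2 + (29617223279/368640 : ℝ) * u^3 + (48767555867/737280 : ℝ) * u^4 + (1397187877/36864 : ℝ) * u^5 + (324681717/20480 : ℝ) * u^6 + (6391017/1280 : ℝ) * u^7 + (6159889/5120 : ℝ) * u^8 + (2557681/11520 : ℝ) * u^9 + (71275/2304 : ℝ) * u^10 + (4543/1440 : ℝ) * u^11 + (641/2880 : ℝ) * u^12 + (7/720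 : ℝ) * u^13 + (1/5040 : ℝ) * u^14 := by
    intro u hu
    positivity
  have h' := h (r - (4 : ℝ)) (by linarith)
  refine le_of_le_of_eq h' ?_
  ring

theorem pall (r : ℝ) (h : 0 ≤ r) :
    0 ≤ ((r - 1/2)^2)^0/1 + ((r - 1/2)^2)^1/1 + ((r - 1/2)^2)^2/2 + ((r - 1/2)^2)^3/6 + ((r - 1/2)^2)^4/24 + ((r - 1/2)^2)^5/120 + ((r - 1/2)^2)^6/720 + ((r - 1/2)^2)^7/5040 - 10 * (r * (r - 1)^3 * (r - 2) * (r^2 - 3*r + 1)) := by
  rcases le_total r (1/4 : ℝ) with h0 | h0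
  · exact p0 r (by linarith) h0
  rcases le_total r (1/2 : ℝ) with h1 | h1
  · exact p1 r (by linarith) h1
  rcases le_total r (1 : ℝ) with h2 | h2
  · exact p2 r (by linarith) h2
  rcases le_total r (2 : ℝ) with h3 | h3
  · exact p3 r (by linarith) h3
  rcases le_total r (4 : ℝ) with h4 | h4
  · exact p4 r (by linarith) h4
  exact pinf r (by linarith)

theorem m0 (r : ℝ) (h1 : (0 : ℝ) ≤ r) (h2 : r ≤ (1 : ℝ)) :
    0 ≤ ((r - 1/2)^2)^0/1 + ((r - 1/2)^2)^1/1 + ((r - 1/2)^2)^2/2 + ((r - 1/2)^2)^3/6 + ((r - 1/2)^2)^4/24 + ((r - 1/2)^2)^5/120 + ((r - 1/2)^2)^6/720 + ((r - 1/2)^2)^7/5040 + 10 * (r * (r - 1)^3 * (r - 2) * (r^2 - 3*r + 1)) := by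
  have h : ∀ u v : ℝ, 0 ≤ u → 0 ≤ v → 0 ≤ (106028861/82575360 : ℝ) * u^0 * v^14 + (72140057/1966080 : ℝ) * u^1 * v^13 + (2737727321/11796480 : ℝ) * u^2 * v^12 + (2090471023/2949120 : ℝ) * u^3 * v^11 + (5112027761/3932160 : ℝ) * u^4 * v^10 + (9769762277/5898240 : ℝ) * u^5 * v^9 + (2323356209/1310720 : ℝ) * u^6 * v^8 + (2176952343/1146880 : ℝ) * u^7 * v^7 + (2533071409/1310720 : ℝ) * u^8 * v^6 + (9297903077/5898240 : ℝ) * u^9 * v^5 + (3657128561/3932160 : ℝ) * u^10 * v^4 + (1117261423/2949120 : ℝ) * u^11 * v^3 + (1204184921/11796480 : ℝ) * u^12 * v^2 + (32818457/1966080 : ℝ) * u^13 * v^1 + (106028861/82575360 : ℝ) * u^14 * v^0 := by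
    intro u v hu hv
    positivity
  have h' := h (r - (0 : ℝ)) ((1 : ℝ) - r) (by linarith) (by linarith)
  refine le_of_le_of_eq h' ?_
  ring

theorem m1 (r : ℝ) (h1 : (1 : ℝ) ≤ r) (h2 : r ≤ (2 : ℝ)) :
    0 ≤ ((r - 1/2)^2)^0/1 + ((r - 1/2)^2)^1/1 + ((r - 1/2)^2)^2/2 + ((r - 1/2)^2)^3/6 + ((r - 1/2)^2)^4/24 + ((r - 1/2)^2)^5/120 + ((r - 1/2)^2)^6/720 + ((r - 1/2)^2)^7/5040 + 10 * (r * (r - 1)^3 * (r - 2) * (r^2 - 3*r + 1)) := by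
  have h : ∀ u v : ℝ, 0 ≤ u → 0 ≤ v → 0 ≤ (106028861/82575360 : ℝ) * u^0 * v^14 + (113602351/5898240 : ℝ) * u^1 * v^13 + (1598006401/11796480 : ℝ) * u^2 * v^12 + (197312419/327680 : ℝ) * u^3 * v^11 + (502654575/262144 : ℝ) * u^4 * v^10 + (9120760603/1966080 : ℝ) * u^5 * v^9 + (34161074939/3932160 : ℝ) * u^6 * v^8 + (43134229273/3440640 : ℝ) * u^7 * v^7 + (54003385843/3932160 : ℝ) * u^8 * v^6 + (1467763333/131072 : ℝ) * u^9 * v^5 + (8686701523/1310720 : ℝ) * u^10 * v^4 + (900573443/327680 : ℝ) * u^11 * v^3 + (990167041/1310720 : ℝ) * u^12 * v^2 + (81462727/655360 : ℝ) * u^13 * v^1 + (17370601/1835008 : ℝ) * u^14 * v^0 := by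
    intro u v hu hv
    positivity
  have h' := h (r - (1 : ℝ)) ((2 : ℝ) - r) (by linarith) (by linarith)
  refine le_of_le_of_eq h' ?_
  ring

theorem minf (r : ℝ) (h1 : (2 : ℝ) ≤ r) :
    0 ≤ ((r - 1/2)^2)^0/1 + ((r - 1/2)^2)^1/1 + ((r - 1/2)^2)^2/2 + ((r - 1/2)^2)^3/6 + ((r - 1/2)^2)^4/24 + ((r - 1/2)^2)^5/120 + ((r - 1/2)^2)^6/720 + ((r - 1/2)^2)^7/5040 + 10 * (r * (r - 1)^3 * (r - 2) * (r^2 - 3*r + 1)) := by
  have h : ∀ u : ℝ, 0 ≤ u → 0 ≤ (17370601/1835008 : ℝ) * u^0 + (2695139/327680 : ℝ) * u^1 + (306301/327680 : ℝ) * u^2 + (2746299/40960 : ℝ) * u^3 + (14737163/81920 : ℝ) * u^4 + (775729/4096 : ℝ) * u^5 + (6238591/61440 : ℝ) * u^6 + (303411/8960 : ℝ) * u^7 + (171307/15360 : ℝ) * u^8 + (5341/1280 : ℝ) * u^9 + (937/768 : ℝ) * u^10 + (43/160 : ℝ) * u^11 + (121/2880 : ℝ) * u^12 + (1/240 : ℝ) * u^13 + (1/5040 : ℝ) * u^14 := by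
    intro u hu
    positivity
  have h' := h (r - (2 : ℝ)) (by linarith)
  refine le_of_le_of_eq h' ?_
  ring

theorem mall (r : ℝ) (h : 0 ≤ r) :
    0 ≤ ((r - 1/2)^2)^0/1 + ((r - 1/2)^2)^1/1 + ((r - 1/2)^2)^2/2 + ((r - 1/2)^2)^3/6 + ((r - 1/2)^2)^4/24 + ((r - 1/2)^2)^5/120 + ((r - 1/2)^2)^6/720 + ((r - 1/2)^2)^7/5040 + 10 * (r * (r - 1)^3 * (r - 2) * (r^2 - 3*r + 1)) := by
  rcases le_total r (1 : ℝ) with h0 | h0
  · exact m0 r (by linarith) h0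
  rcases le_total r (2 : ℝ) with h1 | h1
  · exact m1 r (by linarith) h1
  exact minf r (by linarith)

theorem pointwise (r : ℝ) (h : 0 ≤ r) :
    |r * (r - 1)^3 * (r - 2) * (r^2 - 3*r + 1)| ≤ Real.exp (r^2 - r - 2) := by
  have h1 := pall r h
  have h2 := mall r h
  have h3 := Real.sum_le_exp_of_nonneg (x := (r - 1/2)^2) (sq_nonneg _) 8
  simp only [Finset.sum_range_succ, Finset.sum_range_zero, Nat.factorial] at h3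
  have h4 : Real.exp (9/4) ≤ 10 := by
    have e1 : Real.exp (9/4) ^ 4 = Real.exp 1 ^ 9 := by
      rw [← Real.exp_nat_mul, ← Real.exp_nat_mul]
      norm_num
    have e2 : Real.exp 1 ^ 9 ≤ (2.7182818286 : ℝ) ^ 9 :=
      pow_le_pow_left₀ (Real.exp_pos 1).le Real.exp_one_lt_d9.le 9
    have e3 : Real.exp (9/4) ^ 4 ≤ 10 ^ 4 := by
      rw [e1]
      refine e2.trans ?_
      norm_num
    exact le_of_pow_le_pow_left₀ (by norm_num) (by norm_num) e3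
  have h5 : Real.exp ((r - 1/2)^2) = Real.exp (r^2 - r - 2) * Real.exp (9/4) := by
    rw [← Real.exp_add]
    congr 1
    ring
  have h6 : Real.exp ((r - 1/2)^2) ≤ Real.exp (r^2 - r - 2) * 10 := by
    rw [h5]
    exact mul_le_mul_of_nonneg_left h4 (Real.exp_pos _).le
  push_cast at h3
  rw [abs_le]
  constructor <;> linarith

end Pool.Agent.H.MP_ce8257_co
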