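import Mathlib
import Pool.Agent.H.MP_ce8257_co.Point

set_option autoImplicit false

namespace Pool.Agent.H.MP_ce8257_co

open Polynomial

theorem exists_multiset (p : ℝ[X]) (hm : p.Monic)
    (h : ∀ z : ℂ, (p.map (algebraMap ℝ ℂ)).eval z = 0 → z.im = 0) :
    ∃ R : Multiset ℝ, Multiset.card R = p.natDegree ∧ p = (R.map (fun r => X + C r)).prod := by
  have hs : p.Splits := by
    apply Splits.of_splits_map (algebraMap ℝ ℂ) (IsAlgClosed.splits _)
    intro a ha
    have h0 := h a (isRoot_of_mem_roots ha)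
    exact ⟨a.re, Complex.ext (by simp) (by simp [h0])⟩
  refine ⟨p.roots.map (fun r => -r), by simp [hs.natDegree_eq_card_roots], ?_⟩
  rw [Multiset.map_map]
  conv_lhs => rw [hs.eq_prod_roots_of_monic hm]
  congr 2
  ext1 a
  simp [sub_eq_add_neg]

theorem esymm_one' (R : Multiset ℝ) : R.esymm 1 = R.sum := by
  simp [Multiset.esymm, Multiset.powersetCard_one]

theorem esymm_two' (R : Multiset ℝ) :
    R.sum ^ 2 = (R.map (fun r => r ^ 2)).sum + 2 * R.esymm 2 := by
  induction R using Multiset.induction_on with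
  | empty => simp [Multiset.esymm]
  | cons a R ih =>
    have : (a ::ₘ R).esymm 2 = R.esymm 2 + a * R.sum := by
      have := Multiset.sum_map_mul_left (s := R) (a := a) (f := fun x => x)
      simp only [Multiset.map_id'] at this
      simp [Multiset.esymm, Multiset.powersetCard_cons, Multiset.powersetCard_one, this]
    rw [this, Multiset.sum_cons, Multiset.map_cons, Multiset.sum_cons]
    linear_combination ih

theorem coeff_one' (R : Multiset ℝ) (n : ℕ) (hn : Multiset.card R = n + 1) :
    (R.map (fun r => X + C r)).prod.coeff n = R.sum := by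
  rw [Multiset.prod_X_add_C_coeff _ (by omega), hn, ← esymm_one']
  congr 1
  omega

theorem coeff_two' (R : Multiset ℝ) (n : ℕ) (hn : Multiset.card R = n + 2) :
    (R.map (fun r => r ^ 2)).sum =
      R.sum ^ 2 - 2 * (R.map (fun r => X + C r)).prod.coeff n := by
  rw [Multiset.prod_X_add_C_coeff _ (by omega), hn, esymm_two']
  have : n + 2 - n = 2 := by omega
  rw [this]
  ring

theorem abs_prod_le (R : Multiset ℝ) (h : ∀ r ∈ R, 0 ≤ r) :
    |(R.map (fun r => r * (r - 1)^3 * (r - 2) * (r^2 - 3*r + 1))).prod| ≤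
      Real.exp (R.map (fun r => r^2 - r - 2)).sum := by
  induction R using Multiset.induction_on with
  | empty => simp
  | cons a R ih =>
    rw [Multiset.map_cons, Multiset.map_cons, Multiset.prod_cons, Multiset.sum_cons, abs_mul,
      Real.exp_add]
    exact mul_le_mul (pointwise a (h a (Multiset.mem_cons_self _ _)))
      (ih fun r hr => h r (Multiset.mem_cons_of_mem hr)) (abs_nonneg _) (Real.exp_pos _).le

theorem eval_pair (P : ℤ[X]) : ∃ u v : ℤ, ∀ t : ℝ, t ^ 2 + 3 * t + 1 = 0 →
    (P.map (Int.castRingHom ℝ)).eval t = u + v * t := by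
  induction P using Polynomial.induction_on with
  | C a => exact ⟨a, 0, by simp⟩
  | add p q hp hq =>
    obtain ⟨u, v, h⟩ := hp
    obtain ⟨u', v', h'⟩ := hq
    refine ⟨u + u', v + v', fun t ht => ?_⟩
    rw [Polynomial.map_add, eval_add, h t ht, h' t ht]
    push_cast
    ring
  | monomial n a ih =>
    obtain ⟨u, v, h⟩ := ih
    refine ⟨-v, u - 3 * v, fun t ht => ?_⟩
    have := h t ht
    rw [pow_succ, ← mul_assoc, Polynomial.map_mul, eval_mul, this]
    simp only [Polynomial.map_X, eval_X]
    push_cast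
    linear_combination v * ht

theorem eval_prod (R : Multiset ℝ) (c : ℝ) :
    (R.map (fun r => X + C r)).prod.eval (-c) = (R.map (fun r => r - c)).prod := by
  rw [eval_multiset_prod, Multiset.map_map]
  congr 2
  ext r
  simp
  ring

theorem eval_int (P : ℤ[X]) (c : ℤ) :
    (P.map (Int.castRingHom ℝ)).eval (c : ℝ) = ((P.eval c : ℤ) : ℝ) := by
  rw [eval_intCast_map]
  simp

theorem lift_div (P q : ℤ[X]) (hq : q.Monic) (B : ℝ[X])
    (h : P.map (Int.castRingHom ℝ) = q.map (Int.castRingHom ℝ) * B) :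
    (P /ₘ q).map (Int.castRingHom ℝ) = B := by
  rw [map_divByMonic _ hq, h, mul_divByMonic_cancel_left _ (hq.map _)]

theorem one_le_abs_int {x : ℝ} (k : ℤ) (h : x = k) (h0 : x ≠ 0) : 1 ≤ |x| := by
  subst h
  have : k ≠ 0 := by
    intro e
    apply h0
    simp [e]
  exact_mod_cast Int.one_le_abs this

theorem key (n : ℕ) : ∀ (R : Multiset ℝ) (P : ℤ[X]), Multiset.card R = n →
    P.map (Int.castRingHom ℝ) = (R.map (fun r => X + C r)).prod →
    (∀ r ∈ R, 0 ≤ r ∧ r ≠ 1) →
    0 ≤ (R.map (fun r => r^2 - r - 2)).sum + 2 * (R.count 0 : ℝ) := by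
  induction n using Nat.strong_induction_on with
  | _ n ih =>
  intro R P hn hP hR
  by_cases h0 : (0 : ℝ) ∈ R
  · obtain ⟨R', rfl⟩ := Multiset.exists_cons_of_mem h0
    have hd := lift_div P X monic_X (R'.map (fun r => X + C r)).prod (by simp [hP])
    have := ih (Multiset.card R') (by rw [← hn]; simp) R' _ rfl hd
      (fun r hr => hR r (Multiset.mem_cons_of_mem hr))
    simp only [Multiset.map_cons, Multiset.sum_cons, Multiset.count_cons_self]
    push_cast
    linarith
  by_cases h2 : (2 : ℝ) ∈ R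
  · obtain ⟨R', rfl⟩ := Multiset.exists_cons_of_mem h2
    have hd := lift_div P (X + C 2) (monic_X_add_C 2) (R'.map (fun r => X + C r)).prod
      (by
        rw [hP, Multiset.map_cons, Multiset.prod_cons, Polynomial.map_add, Polynomial.map_X,
          Polynomial.map_C]
        simp)
    have := ih (Multiset.card R') (by rw [← hn]; simp) R' _ rfl hd
      (fun r hr => hR r (Multiset.mem_cons_of_mem hr))
    rw [Multiset.count_cons_of_ne (by norm_num)]
    simp only [Multiset.map_cons, Multiset.sum_cons]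
    linarith
  obtain ⟨u, v, huv⟩ := eval_pair P
  have s5 : Real.sqrt 5 ^ 2 = 5 := Real.sq_sqrt (by norm_num)
  have s5' : 2 < Real.sqrt 5 := by
    apply Real.lt_sqrt_of_sq_lt
    norm_num
  have s5'' : Real.sqrt 5 < 3 := by
    rw [Real.sqrt_lt' (by norm_num)]
    norm_num
  set α : ℝ := (3 + Real.sqrt 5) / 2 with hα
  set β : ℝ := (3 - Real.sqrt 5) / 2 with hβ
  have ea : (-α) ^ 2 + 3 * (-α) + 1 = 0 := by
    rw [hα]; linear_combination (1/4 : ℝ) * s5
  have eb : (-β) ^ 2 + 3 * (-β) + 1 = 0 := by
    rw [hβ]; linear_combination (1/4 : ℝ) * s5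
  have sab : α + β = 3 := by rw [hα, hβ]; ring
  have pab : α * β = 1 := by rw [hα, hβ]; linear_combination (-1/4 : ℝ) * s5
  have ha := huv _ ea
  have hb := huv _ eb
  rw [hP, eval_prod] at ha hb
  have hprod : (R.map (fun r => r - α)).prod * (R.map (fun r => r - β)).prod =
      ((u ^ 2 - 3 * u * v + v ^ 2 : ℤ) : ℝ) := by
    rw [ha, hb]
    push_cast
    linear_combination (-(u : ℝ) * v) * sab + (v : ℝ) ^ 2 * pab
  by_cases hq : α ∈ R ∨ β ∈ R
  · have hz : ((u ^ 2 - 3 * u * v + v ^ 2 : ℤ) : ℝ) = 0 := by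
      rw [← hprod, mul_eq_zero, Multiset.prod_eq_zero_iff, Multiset.prod_eq_zero_iff]
      rcases hq with hq | hq
      · exact Or.inl (Multiset.mem_map.2 ⟨α, hq, sub_self _⟩)
      · exact Or.inr (Multiset.mem_map.2 ⟨β, hq, sub_self _⟩)
    have hv : v = 0 := by
      by_contra hv
      have hv' : (v : ℝ) ≠ 0 := by exact_mod_cast hv
      have irr : Irrational (Real.sqrt 5) := by
        simpa using (Nat.Prime.irrational_sqrt (p := 5) (by norm_num))
      apply irr
      refine ⟨|((2 * u - 3 * v : ℤ) : ℚ) / v|, ?_⟩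
      push_cast at hz ⊢
      rw [← Real.sqrt_sq_eq_abs]
      congr 1
      field_simp
      linear_combination 4 * hz
    have hu : u = 0 := by
      rw [hv] at hz
      have : (u : ℝ) ^ 2 = 0 := by
        push_cast at hz
        linarith
      exact_mod_cast pow_eq_zero_iff (two_ne_zero) |>.1 this
    rw [hu, hv] at ha hb
    simp only [Int.cast_zero, zero_mul, add_zero, Multiset.prod_eq_zero_iff,
      Multiset.mem_map] at ha hb
    obtain ⟨a, ha, ha'⟩ := ha
    obtain ⟨b, hb, hb'⟩ := hb
    have e1 : a = α := by linarith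
    have e2 : b = β := by linarith
    subst e1 e2
    obtain ⟨R', rfl⟩ := Multiset.exists_cons_of_mem ha
    have hne : β ≠ α := by rw [hα, hβ]; linarith
    have hb2 : β ∈ R' := by
      rcases Multiset.mem_cons.1 hb with h | h
      · exact absurd h hne
      · exact h
    obtain ⟨R'', rfl⟩ := Multiset.exists_cons_of_mem hb2
    have hmon : (X ^ 2 + C 3 * X + C 1 : ℤ[X]).Monic := by monicity!
    have hd := lift_div P _ hmon (R''.map (fun r => X + C r)).prod
      (by
        rw [hP, Multiset.map_cons, Multiset.prod_cons, Multiset.map_cons, Multiset.prod_cons,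
          ← mul_assoc]
        congr 1
        simp only [Polynomial.map_add, Polynomial.map_mul, Polynomial.map_pow, Polynomial.map_X,
          Polynomial.map_C]
        have c1 : (C ((Int.castRingHom ℝ) 3) : ℝ[X]) = C α + C β := by
          rw [← C_add, sab]; simp
        have c2 : (C ((Int.castRingHom ℝ) 1) : ℝ[X]) = C α * C β := by
          rw [← C_mul, pab]; simp
        rw [c1, c2]
        ring)
    have := ih (Multiset.card R'') (by rw [← hn]; simp) R'' _ rfl hd
      (fun r hr => hR r (Multiset.mem_cons_of_mem (Multiset.mem_cons_of_mem hr)))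
    rw [Multiset.count_cons_of_ne (by rw [hα]; linarith),
      Multiset.count_cons_of_ne (by rw [hβ]; linarith)]
    simp only [Multiset.map_cons, Multiset.sum_cons]
    nlinarith
  · push Not at hq
    have hle := abs_prod_le R (fun r hr => (hR r hr).1)
    have hfac : (R.map (fun r => r * (r - 1)^3 * (r - 2) * (r^2 - 3*r + 1))).prod =
        (R.map (fun r => r - 0)).prod * (R.map (fun r => r - 1)).prod ^ 3 *
        (R.map (fun r => r - 2)).prod *
        ((R.map (fun r => r - α)).prod * (R.map (fun r => r - β)).prod) := by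
      rw [← Multiset.prod_map_pow, ← Multiset.prod_map_mul, ← Multiset.prod_map_mul,
        ← Multiset.prod_map_mul, ← Multiset.prod_map_mul]
      congr 2
      ext r
      linear_combination (r * (r - 1)^3 * (r - 2)) * (r * sab - pab)
    have nz : ∀ c : ℝ, c ∉ R → (R.map (fun r => r - c)).prod ≠ 0 := by
      intro c hc h
      rw [Multiset.prod_eq_zero_iff, Multiset.mem_map] at h
      obtain ⟨a, ha, ha'⟩ := h
      have : a = c := by linarith
      exact hc (this ▸ ha)
    have b0 : ∀ c : ℤ, (c : ℝ) ∉ R → 1 ≤ |(R.map (fun r => r - (c : ℝ))).prod| := by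
      intro c hc
      refine one_le_abs_int (P.eval (-c)) ?_ (nz _ hc)
      rw [← eval_prod, ← hP, ← eval_int]
      simp
    have c0 := b0 0 (by simpa using h0)
    have c1 := b0 1 (by
      intro h
      exact (hR _ h).2 (by simp))
    have c2 := b0 2 (by simpa using h2)
    have c3 := one_le_abs_int _ hprod (mul_ne_zero (nz _ hq.1) (nz _ hq.2))
    push_cast at c0 c1 c2
    have : (1 : ℝ) ≤ Real.exp (R.map (fun r => r^2 - r - 2)).sum := by
      refine le_trans ?_ hle
      rw [hfac, abs_mul, abs_mul, abs_mul, abs_pow]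
      exact one_le_mul_of_one_le_of_one_le (one_le_mul_of_one_le_of_one_le
        (one_le_mul_of_one_le_of_one_le c0 (one_le_pow₀ c1)) c2) c3
    have h1 := Real.one_le_exp_iff.1 this
    positivity

theorem star_root (l : ℕ) (hl : 3 ≤ l) : ∃ w : ℂ, w.im ≠ 0 ∧ (1 + w) ^ l + w = 0 := by
  by_contra hcon
  push Not at hcon
  obtain ⟨k, rfl⟩ : ∃ k, l = k + 3 := ⟨l - 3, by omega⟩
  have hm : (X ^ (k + 3) + (X - C 1) : ℝ[X]).Monic := by
    apply Monic.add_of_left (monic_X_pow _)
    rw [degree_X_pow, degree_X_sub_C]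
    exact_mod_cast (by omega : 1 < k + 3)
  have hdeg : (X ^ (k + 3) + (X - C 1) : ℝ[X]).natDegree = k + 3 := by
    rw [natDegree_add_eq_left_of_degree_lt, natDegree_X_pow]
    rw [degree_X_pow, degree_X_sub_C]
    exact_mod_cast (by omega : 1 < k + 3)
  obtain ⟨R, h1, h2⟩ := exists_multiset _ hm (by
    intro z hz
    by_contra him
    apply hcon (z - 1) (by simpa using him)
    simp at hz
    simpa using hz)
  rw [hdeg] at h1
  have a1 := coeff_one' R (k + 2) h1
  have a2 := coeff_two' R (k + 1) h1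
  rw [← h2] at a1 a2
  have nn : ∀ x ∈ R.map (fun r => r ^ 2), 0 ≤ x := by
    intro x hx
    obtain ⟨r, _, rfl⟩ := Multiset.mem_map.1 hx
    positivity
  have n2 := Multiset.sum_nonneg nn
  have a1' : R.sum = 0 := by
    rw [← a1]
    simp [coeff_X_pow, coeff_X, coeff_one]
  rw [a1'] at a2
  rcases Nat.eq_zero_or_pos k with rfl | hk
  · simp [coeff_X_pow, coeff_X, coeff_one] at a2
    linarith
  · have a3 : (R.map (fun r => r ^ 2)).sum = 0 := by
      rw [a2]
      simp [coeff_X_pow, coeff_X, coeff_one]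
      omega
    obtain ⟨r, hr⟩ := Multiset.card_pos_iff_exists_mem.1 (by omega : 0 < Multiset.card R)
    have a4 : r ^ 2 ≤ 0 := by
      rw [← a3]
      exact Multiset.single_le_sum nn _ (Multiset.mem_map.2 ⟨r, hr, rfl⟩)
    have a5 : r = 0 := by nlinarith
    have a6 := eval_prod R 0
    rw [← h2, Multiset.prod_eq_zero (Multiset.mem_map.2 ⟨r, hr, by simp [a5]⟩)] at a6
    simp at a6

end Pool.Agent.H.MP_ce8257_co
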