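import Mathlib
import Pool.Agent.H.MP_ce8257_co.Alg
import Pool.Agent.Lib.helper8.IndPoly

set_option autoImplicit false

namespace Pool.Agent.H.MP_ce8257_co

open Polynomial Finset Pool.Agent.Lib.helper8

variable {V : Type} [Fintype V] [DecidableEq V]

def dom (G : SimpleGraph V) (S : Finset V) : Prop := ∀ v, v ∈ S ∨ ∃ u ∈ S, G.Adj v u

open Classical in
noncomputable def domP (G : SimpleGraph V) : ℤ[X] :=
  ∑ S ∈ univ.filter (dom G), X ^ S.card

open Classical in
theorem coeff_domP (G : SimpleGraph V) (k : ℕ) :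
    (domP G).coeff k = ((univ.filter (fun S => dom G S ∧ S.card = k)).card : ℤ) := by
  unfold domP
  rw [finsetSum_coeff]
  simp only [coeff_X_pow]
  rw [Finset.sum_boole, Finset.filter_filter]
  congr 2
  ext S
  simp [eq_comm]

open Classical in
theorem eval_domP {R : Type} [CommRing R] (G : SimpleGraph V) (z : R) :
    ((domP G).map (Int.castRingHom R)).eval z = ∑ S ∈ univ.filter (dom G), z ^ S.card := by
  unfold domP
  simp [Polynomial.map_sum, eval_finsetSum]

open Classical in
theorem odd_dom (G : SimpleGraph V) : (((univ.filter (dom G)).card : ℕ) : ZMod 2) = 1 := by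
  set Pairs : Finset (Finset V × Finset V) :=
    univ.filter (fun p => ∀ a ∈ p.1, ∀ b ∈ p.2, a ≠ b ∧ ¬ G.Adj a b) with hP
  have h1 : ((Pairs.card : ℕ) : ZMod 2) = 1 := by
    have hm : ((∅, ∅) : Finset V × Finset V) ∈ Pairs := by simp [hP]
    have := Finset.sum_involution (s := Pairs.erase (∅, ∅)) (f := fun _ => (1 : ZMod 2))
      (fun p _ => p.swap) (fun _ _ => by decide)
      (by
        rintro ⟨A, B⟩ hp _ h
        simp only [Prod.swap_prod_mk, Prod.mk.injEq] at h
        obtain ⟨rfl, -⟩ := h
        simp only [hP, Finset.mem_erase, Finset.mem_filter, Finset.mem_univ, true_and] at hp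
        apply hp.1
        have : B = ∅ := by
          rw [Finset.eq_empty_iff_forall_notMem]
          intro a ha
          exact (hp.2 a ha a ha).1 rfl
        rw [this])
      (by
        rintro ⟨A, B⟩ hp
        simp only [hP, Finset.mem_erase, Finset.mem_filter, Finset.mem_univ, true_and,
          Prod.swap_prod_mk, ne_eq, Prod.mk.injEq] at hp ⊢
        refine ⟨fun h => hp.1 ⟨h.2, h.1⟩, fun a ha b hb => ?_⟩
        exact ⟨fun e => (hp.2 b hb a ha).1 e.symm, fun e => (hp.2 b hb a ha).2 e.symm⟩)
      (fun _ _ => rfl)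
    rw [← Finset.card_erase_add_one hm]
    simp only [Finset.sum_const, nsmul_eq_mul, mul_one] at this
    push_cast
    rw [this, zero_add]
  have h2 : Pairs.card = ∑ A : Finset V,
      2 ^ (univ.filter (fun b => ∀ a ∈ A, a ≠ b ∧ ¬ G.Adj a b)).card := by
    rw [Finset.card_eq_sum_card_fiberwise (f := Prod.fst) (t := univ) (by simp)]
    apply Finset.sum_congr rfl
    intro A _
    rw [← Finset.card_powerset]
    apply Finset.card_bij (fun p _ => p.2)
    · rintro ⟨A', B⟩ hp
      simp only [hP, Finset.mem_filter, Finset.mem_univ, true_and] at hp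
      obtain ⟨hp, rfl⟩ := hp
      rw [Finset.mem_powerset]
      intro b hb
      simp only [Finset.mem_filter, Finset.mem_univ, true_and]
      exact fun a ha => hp a ha b hb
    · rintro ⟨A1, B1⟩ h1 ⟨A2, B2⟩ h2 h
      simp only [Finset.mem_filter] at h1 h2 h
      rw [h1.2, h2.2, h]
    · intro B hB
      refine ⟨(A, B), ?_, rfl⟩
      simp only [hP, Finset.mem_filter, Finset.mem_univ, true_and, and_true]
      intro a ha b hb
      have := Finset.mem_powerset.1 hB hb
      simp only [Finset.mem_filter, Finset.mem_univ, true_and] at this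
      exact this a ha
  rw [← h1, h2, Finset.card_filter]
  push_cast
  apply Finset.sum_congr rfl
  intro A _
  split_ifs with h
  · have : univ.filter (fun b => ∀ a ∈ A, a ≠ b ∧ ¬ G.Adj a b) = ∅ := by
      rw [Finset.filter_eq_empty_iff]
      intro b _ hb
      rcases h b with h | ⟨u, hu, h⟩
      · exact (hb b h).1 rfl
      · exact (hb u hu).2 h.symm
    rw [this]
    simp
  · have : (univ.filter (fun b => ∀ a ∈ A, a ≠ b ∧ ¬ G.Adj a b)).card ≠ 0 := by
      rw [Finset.card_ne_zero]
      unfold dom at h
      push Not at h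
      obtain ⟨b, hb, hb'⟩ := h
      refine ⟨b, ?_⟩
      simp only [Finset.mem_filter, Finset.mem_univ, true_and]
      exact fun a ha => ⟨fun e => hb (e ▸ ha), fun e => hb' a ha e.symm⟩
    have e2 : (2 : ZMod 2) = 0 := by decide
    rw [e2, zero_pow this]

theorem eval_neg_one (G : SimpleGraph V) : (domP G).eval (-1) ≠ 0 := by
  classical
  intro h
  have h1 := eval_domP (R := ZMod 2) G (-1)
  have h2 := eval_intCast_map (Int.castRingHom (ZMod 2)) (domP G) (-1)
  rw [Int.cast_id, h] at h2
  push_cast at h2
  rw [h2] at h1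
  have e : (-1 : ZMod 2) = 1 := by decide
  rw [e] at h1
  simp only [one_pow, Finset.sum_const, nsmul_eq_mul, mul_one, map_zero] at h1
  rw [odd_dom] at h1
  exact zero_ne_one h1

theorem dom_of_big (G : SimpleGraph V) (hiso : ∀ v, ∃ w, G.Adj v w) (S : Finset V)
    (h : Fintype.card V ≤ S.card + 1) : dom G S := by
  intro v
  by_contra hc
  push Not at hc
  obtain ⟨w, hw⟩ := hiso v
  have hw' : w ∉ S := fun e => hc.2 w e hw
  have h1 : ({v, w} : Finset V) ⊆ Sᶜ := by
    intro x hx
    simp only [Finset.mem_insert, Finset.mem_singleton] at hx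
    rcases hx with rfl | rfl
    · simpa using hc.1
    · simpa using hw'
  have h2 := Finset.card_le_card h1
  rw [Finset.card_pair hw.ne, Finset.card_compl] at h2
  omega

theorem card_filter_card (k : ℕ) :
    (univ.filter (fun S : Finset V => S.card = k)).card = (Fintype.card V).choose k := by
  rw [← Finset.card_univ, ← Finset.card_powersetCard]
  congr 1
  ext S
  simp

open Classical in
/-- every dominating set has at least `n - L` elements, where `L` counts the non-dominating
sets of size `n - 2` -/
theorem lower (G : SimpleGraph V) (hiso : ∀ v, ∃ w, G.Adj v w) (k : ℕ)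
    (hn : Fintype.card V = k + 2)
    (hreal : ∀ z : ℂ, ∑ S ∈ univ.filter (dom G), z ^ S.card = 0 → z.im = 0)
    (S : Finset V) (hS : dom G S) :
    k + 2 ≤ S.card + (univ.filter (fun S : Finset V => ¬ dom G S ∧ S.card = k)).card := by
  have c0 : ∀ j, k + 1 ≤ j → (domP G).coeff j = ((k + 2).choose j : ℤ) := by
    intro j hj
    rw [coeff_domP, ← hn, ← card_filter_card]
    congr 2
    ext T
    simp only [Finset.mem_filter, Finset.mem_univ, true_and, and_iff_right_iff_imp]
    intro hT
    exact dom_of_big G hiso T (by omega)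
  have c2 : (domP G).coeff k +
      ((univ.filter (fun S : Finset V => ¬ dom G S ∧ S.card = k)).card : ℤ) =
      ((k + 2).choose 2 : ℤ) := by
    rw [coeff_domP, ← Nat.choose_symm_add, ← hn, ← card_filter_card,
      ← Finset.card_filter_add_card_filter_not (s := univ.filter (fun S : Finset V => S.card = k))
        (dom G), Finset.filter_filter, Finset.filter_filter]
    push_cast
    congr 3 <;> ext T <;> simp [and_comm]
  have hdeg : (domP G).natDegree = k + 2 := by
    apply le_antisymm
    · rw [natDegree_le_iff_coeff_eq_zero]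
      intro j hj
      rw [c0 j (by omega), Nat.choose_eq_zero_of_lt hj]
      simp
    · apply le_natDegree_of_ne_zero
      rw [c0 _ (by omega)]
      simp
  have hmon : (domP G).Monic := by
    rw [Monic, leadingCoeff, hdeg, c0 _ (by omega)]
    simp
  obtain ⟨R, h1, h2⟩ := exists_multiset _ (hmon.map (Int.castRingHom ℝ)) (by
    intro z hz
    apply hreal
    rw [← eval_domP, ← hz, Polynomial.map_map]
    congr 2)
  rw [hmon.natDegree_map, hdeg] at h1
  have hroot : ∀ r ∈ R, ((domP G).map (Int.castRingHom ℝ)).eval (-r) = 0 := by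
    intro r hr
    rw [h2, eval_prod]
    exact Multiset.prod_eq_zero (Multiset.mem_map.2 ⟨r, hr, sub_self _⟩)
  have hk := key _ R (domP G) rfl h2 (by
    intro r hr
    have h0 := hroot r hr
    constructor
    · by_contra hneg
      push Not at hneg
      rw [eval_domP] at h0
      have : 0 < ∑ S ∈ univ.filter (dom G), (-r) ^ S.card := by
        apply Finset.sum_pos
        · intro T _
          exact pow_pos (by linarith) _
        · exact ⟨S, by simpa using hS⟩
      linarith
    · rintro rfl
      have := eval_int (domP G) (-1)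
      push_cast at this
      rw [h0] at this
      exact eval_neg_one G (by exact_mod_cast this.symm))
  have a1 := coeff_one' R (k + 1) h1
  have a2 := coeff_two' R k h1
  rw [← h2, coeff_map] at a1 a2
  rw [c0 _ le_rfl, Nat.choose_succ_self_right] at a1
  have a3 : (R.map (fun r => r^2 - r - 2)).sum =
      (R.map (fun r => r ^ 2)).sum - R.sum - 2 * (k + 2) := by
    rw [Multiset.sum_map_sub, Multiset.sum_map_sub]
    simp [h1]
    ring
  have c2' : (((domP G).coeff k : ℤ) : ℝ) +
      ((univ.filter (fun S : Finset V => ¬ dom G S ∧ S.card = k)).card : ℝ) =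
      (k + 2) * (k + 1) / 2 := by
    have := congrArg (fun x : ℤ => (x : ℝ)) c2
    push_cast at this
    rw [this, Nat.cast_choose_two]
    push_cast
    ring
  have hm : R.count 0 ≤ S.card := by
    by_contra hlt
    push Not at hlt
    have d1 : (X : ℝ[X]) ^ (R.count 0) ∣ (domP G).map (Int.castRingHom ℝ) := by
      rw [h2]
      have := Multiset.prod_dvd_prod_of_le (Multiset.map_le_map (f := fun r : ℝ => X + C r)
        (Multiset.le_count_iff_replicate_le.1 (le_refl (R.count 0))))
      simpa using this
    have d2 := X_pow_dvd_iff.1 d1 _ hlt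
    rw [coeff_map, coeff_domP] at d2
    simp only [eq_intCast, Int.cast_natCast, Nat.cast_eq_zero, Finset.card_eq_zero,
      Finset.filter_eq_empty_iff] at d2
    exact d2 (Finset.mem_univ S) ⟨hS, rfl⟩
  have hm' : ((R.count 0 : ℕ) : ℝ) ≤ S.card := by exact_mod_cast hm
  simp only [eq_intCast] at a1 a2
  push_cast at a1
  have : ((k : ℝ) + 2) ≤ S.card +
      ((univ.filter (fun S : Finset V => ¬ dom G S ∧ S.card = k)).card : ℝ) := by
    rw [← a1] at a2 a3
    nlinarith
  exact_mod_cast this

def leaf (G : SimpleGraph V) (v : V) : Prop := ∃! w, G.Adj v w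

open Classical in
theorem exists_X (G : SimpleGraph V) (hiso : ∀ v, ∃ w, G.Adj v w) (k : ℕ)
    (hn : Fintype.card V = k + 2) :
    ∃ A : Finset V, (∀ x ∈ A, leaf G x) ∧ (∀ x ∈ A, ∀ y ∈ A, ¬ G.Adj x y) ∧
      (univ.filter (fun S : Finset V => ¬ dom G S ∧ S.card = k)).card ≤ A.card := by
  let e := Fintype.equivFin V
  refine ⟨univ.filter (fun x => leaf G x ∧ ∀ y, G.Adj x y → leaf G y → e x < e y), ?_, ?_, ?_⟩
  · intro x hx
    exact (Finset.mem_filter.1 hx).2.1
  · intro x hx y hy h
    have hx' := (Finset.mem_filter.1 hx).2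
    have hy' := (Finset.mem_filter.1 hy).2
    exact lt_asymm (hx'.2 y h hy'.1) (hy'.2 x h.symm hx'.1)
  · apply Finset.card_le_card_of_surjOn
      (fun x => univ.filter (fun y => y ≠ x ∧ ¬ G.Adj x y))
    intro S hS
    simp only [Finset.coe_filter, Finset.mem_univ, true_and, Set.mem_setOf_eq] at hS
    obtain ⟨hd, hc⟩ := hS
    unfold dom at hd
    push Not at hd
    obtain ⟨v, hv, hv'⟩ := hd
    obtain ⟨w, hw⟩ := hiso v
    have hw' : w ∉ S := fun e => hv' w e hw
    have h1 : ({v, w} : Finset V) = Sᶜ := by
      apply Finset.eq_of_subset_of_card_le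
      · intro x hx
        simp only [Finset.mem_insert, Finset.mem_singleton] at hx
        rcases hx with rfl | rfl
        · simpa using hv
        · simpa using hw'
      · rw [Finset.card_pair hw.ne, Finset.card_compl]
        omega
    have h2 : ∀ y, y ∈ S ↔ ¬ (y = v ∨ y = w) := by
      intro y
      have : y ∈ ({v, w} : Finset V) ↔ y ∈ Sᶜ := by rw [h1]
      simp only [Finset.mem_insert, Finset.mem_singleton, Finset.mem_compl] at this
      tauto
    have h3 : ∀ y, G.Adj v y → y = w := by
      intro y hy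
      have := (h2 y).not.1 (fun e => hv' y e hy)
      push Not at this
      exact this.resolve_left hy.ne'
    have lv : leaf G v := ⟨w, hw, h3⟩
    by_cases hcase : leaf G w → e v < e w
    · refine ⟨v, ?_, ?_⟩
      · simp only [Finset.coe_filter, Finset.mem_univ, true_and, Set.mem_setOf_eq]
        refine ⟨lv, fun y hy => ?_⟩
        rw [h3 y hy]
        exact hcase
      · ext y
        simp only [Finset.mem_filter, Finset.mem_univ, true_and, h2]
        constructor
        · rintro ⟨a, b⟩ (c | c)
          · exact a c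
          · exact b (c ▸ hw)
        · intro a
          push Not at a
          exact ⟨a.1, fun c => a.2 (h3 y c)⟩
    · push Not at hcase
      obtain ⟨lw, hle⟩ := hcase
      have h4 : ∀ y, G.Adj w y → y = v := fun y hy => lw.unique hy hw.symm
      refine ⟨w, ?_, ?_⟩
      · simp only [Finset.coe_filter, Finset.mem_univ, true_and, Set.mem_setOf_eq]
        refine ⟨lw, fun y hy _ => ?_⟩
        rw [h4 y hy]
        exact lt_of_le_of_ne hle (fun c => hw.ne (e.injective c).symm)
      · ext y
        simp only [Finset.mem_filter, Finset.mem_univ, true_and, h2]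
        constructor
        · rintro ⟨a, b⟩ (c | c)
          · exact b (c ▸ hw.symm)
          · exact a c
        · intro a
          push Not at a
          exact ⟨a.2, fun c => a.1 (h4 y c)⟩

open Classical in
theorem leaf_or_stem (G : SimpleGraph V) (hiso : ∀ v, ∃ w, G.Adj v w)
    (hreal : ∀ z : ℂ, ∑ S ∈ univ.filter (dom G), z ^ S.card = 0 → z.im = 0) (v : V) :
    leaf G v ∨ ∃ x, G.Adj v x ∧ leaf G x := by
  by_contra hc
  push Not at hc
  obtain ⟨w, hw⟩ := hiso v
  have hn2 : 2 ≤ Fintype.card V := by
    rw [← Finset.card_pair hw.ne]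
    exact Finset.card_le_univ _
  obtain ⟨k, hn⟩ : ∃ k, Fintype.card V = k + 2 := ⟨Fintype.card V - 2, by omega⟩
  obtain ⟨A, a1, a2, a3⟩ := exists_X G hiso k hn
  have hv : v ∉ A := fun h => hc.1 (a1 v h)
  have := lower G hiso k hn hreal (insert v A)ᶜ (by
    intro x
    by_cases hx : x ∈ insert v A
    · right
      obtain ⟨y, hy⟩ := hiso x
      refine ⟨y, ?_, hy⟩
      simp only [Finset.mem_compl, Finset.mem_insert, not_or] at hx ⊢
      rcases hx with rfl | hx
      · exact ⟨hy.ne', fun h => hc.2 y hy (a1 y h)⟩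
      · exact ⟨fun h => hc.2 x (h ▸ hy.symm) (a1 x hx), fun h => a2 x hx y h hy⟩
    · left
      simpa using hx)
  have h2 := Finset.card_le_univ (insert v A)
  rw [Finset.card_compl, Finset.card_insert_of_notMem hv] at *
  omega

/-- the graph of pendant edges -/
def pend (G : SimpleGraph V) : SimpleGraph V where
  Adj u v := G.Adj u v ∧ (leaf G u ∨ leaf G v)
  symm := ⟨fun _ _ h => ⟨h.1.symm, h.2.symm⟩⟩
  loopless := ⟨fun _ h => h.1.ne rfl⟩

theorem dom_iff (G : SimpleGraph V) (h : ∀ v, leaf G v ∨ ∃ x, G.Adj v x ∧ leaf G x)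
    (S : Finset V) : dom G S ↔ (pend G).IsIndepSet ((Sᶜ : Finset V) : Set V) := by
  rw [indep_iff]
  simp only [Finset.mem_compl]
  constructor
  · intro hd u hu v hv e
    have key : ∀ u v, u ∉ S → v ∉ S → G.Adj u v → ¬ leaf G u := by
      intro u v hu hv e l
      rcases hd u with c | ⟨y, hy, c⟩
      · exact hu c
      · exact hv (l.unique c e ▸ hy)
    rcases e.2 with l | l
    · exact key u v hu hv e.1 l
    · exact key v u hv hu e.1.symm l
  · intro hi v
    by_contra hc
    push Not at hc
    rcases h v with l | ⟨x, hx, l⟩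
    · obtain ⟨w, hw, -⟩ := id l
      exact hi v hc.1 w (fun e => hc.2 w e hw) ⟨hw, Or.inl l⟩
    · exact hi v hc.1 x (fun e => hc.2 x e hx) ⟨hx, Or.inr l⟩

open Classical in
theorem few_leaves (G : SimpleGraph V) (h : ∀ v, leaf G v ∨ ∃ x, G.Adj v x ∧ leaf G x)
    (hreal : ∀ z : ℂ, ∑ S ∈ univ.filter (dom G), z ^ S.card = 0 → z.im = 0) (s : V) :
    (univ.filter (fun x => G.Adj s x ∧ leaf G x)).card < 3 := by
  by_contra hc
  push Not at hc
  set A := univ.filter (fun x => G.Adj s x ∧ leaf G x) with hA
  have mA : ∀ x, x ∈ A ↔ G.Adj s x ∧ leaf G x := by simp [hA]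
  have ns : ¬ leaf G s := by
    intro l
    have : A.card ≤ 1 := by
      rw [Finset.card_le_one]
      intro a ha b hb
      exact l.unique ((mA a).1 ha).1 ((mA b).1 hb).1
    omega
  have sA : s ∉ A := fun e => ns ((mA s).1 e).2
  obtain ⟨w, hw, hw0⟩ := star_root A.card hc
  have w0 : w ≠ 0 := by
    rintro rfl
    simp at hw
  have h1 : ip (pend G) w (insert s A) = 0 := by
    rw [ip_delete _ _ _ s (Finset.mem_insert_self _ _), Finset.erase_insert sA, ip_edgeless,
      Finset.filter_eq_empty_iff.2, ip_empty, mul_one, hw0]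
    · intro x hx
      rw [not_not]
      exact ⟨((mA x).1 hx).1, Or.inr ((mA x).1 hx).2⟩
    · intro a ha b hb e
      have := ((mA a).1 ha).2.unique e.1 ((mA a).1 ha).1.symm
      exact sA (this ▸ hb)
  have h2 : ip (pend G) w univ = 0 := by
    rw [← Finset.union_compl (insert s A), ip_union _ _ _ _ disjoint_compl_right, h1, zero_mul]
    intro a ha b hb e
    simp only [Finset.mem_compl, Finset.mem_insert, not_or] at ha hb
    rcases ha with rfl | ha
    · exact hb.2 ((mA b).2 ⟨e.1, e.2.resolve_left ns⟩)
    · exact hb.1 (((mA a).1 ha).2.unique e.1 ((mA a).1 ha).1.symm)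
  have h3 : (∑ S ∈ univ.filter (dom G), w⁻¹ ^ S.card) * w ^ Fintype.card V =
      ip (pend G) w univ := by
    unfold ip
    rw [Finset.sum_mul]
    refine Finset.sum_bij' (fun S _ => Sᶜ) (fun S _ => Sᶜ) ?_ ?_ ?_ ?_ ?_
    · intro S hS
      simp only [Finset.mem_filter, Finset.mem_univ, true_and, Finset.powerset_univ] at hS ⊢
      exact (dom_iff G h S).1 hS
    · intro S hS
      simp only [Finset.mem_filter, Finset.mem_univ, true_and, Finset.powerset_univ] at hS ⊢
      rw [dom_iff G h, compl_compl]
      exact hS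
    · simp
    · simp
    · intro S _
      rw [← Finset.card_add_card_compl S, pow_add, ← mul_assoc, ← mul_pow, inv_mul_cancel₀ w0]
      simp
  rw [h2, mul_eq_zero] at h3
  have h4 := hreal _ (h3.resolve_right (pow_ne_zero _ w0))
  apply hw
  rw [Complex.inv_im, div_eq_zero_iff] at h4
  rcases h4 with h4 | h4
  · linarith
  · exact absurd (Complex.normSq_eq_zero.1 h4) w0

end Pool.Agent.H.MP_ce8257_co
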